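import Pool.Agent.Lib.MP_79499b_co.Q38NT

/-!
# Which squarefree `a` are good for an arbitrary odd modulus `d`
-/

namespace Pool.Agent.Lib.MP_79499b_co.C11

open Finset
open scoped Classical NumberTheorySymbols
open Pool.Agent.Lib.MP_79499b_co.Q38

/-- an odd prime factor of `a` which does not divide `d` -/
lemma good_prime {d p c : ℕ} (hd3 : 3 ≤ d) (hp : p.Prime) (hp2 : p ≠ 2)
    (hpd : ¬ p ∣ d) (hc : 0 < c) (hpc : ¬ p ∣ c) : Good d (p * c) := by
  have : Fact p.Prime := ⟨hp⟩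
  obtain ⟨b, hb⟩ : ∃ b : ZMod p, ¬ IsSquare b := FiniteField.exists_nonsquare (by
    rw [ZMod.ringChar_zmod_n]; exact hp2)
  have hcop : p.Coprime (4 * c * d) := by
    rw [Nat.Prime.coprime_iff_not_dvd hp]
    intro h
    rcases (Nat.Prime.dvd_mul hp).mp h with h | h
    · rcases (Nat.Prime.dvd_mul hp).mp h with h | h
      · have h1 : p ∣ 2 ^ 2 := by simpa using h
        exact hp2 ((Nat.prime_dvd_prime_iff_eq hp Nat.prime_two).mp (hp.dvd_of_dvd_pow h1))
      · exact hpc h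
    · exact hpd h
  obtain ⟨n₀, hn1, hn2⟩ := Nat.chineseRemainder hcop b.val 1
  have h4cl : 1 < 4 * c * d := by nlinarith
  have h1 : n₀ % (4 * c * d) = 1 := by
    have : n₀ % (4 * c * d) = 1 % (4 * c * d) := hn2
    rw [this, Nat.mod_eq_of_lt h4cl]
  have hb0 : b ≠ 0 := by rintro rfl; exact hb ⟨0, by simp⟩
  have hnb : ((n₀ : ℕ) : ZMod p) = b := by
    have h2 : ((n₀ : ℕ) : ZMod p) = ((b.val : ℕ) : ZMod p) :=
      (ZMod.natCast_eq_natCast_iff _ _ _).mpr hn1
    rw [h2, ZMod.natCast_zmod_val]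
  have hleg : J(n₀ | p) = -1 := by
    rw [← jacobiSym.legendreSym.to_jacobiSym, legendreSym.eq_neg_one_iff]
    simpa [hnb] using hb
  have h4 : n₀ % 4 = 1 := by
    have h3 : n₀ % (4 * c * d) % 4 = n₀ % 4 := Nat.mod_mod_of_dvd n₀ ⟨c * d, by ring⟩
    rw [h1] at h3
    omega
  have hodd : Odd p := hp.odd_of_ne_two hp2
  refine ⟨n₀, ?_, ?_, ?_⟩
  · have h3 : n₀ % (4 * c * d) % d = n₀ % d := Nat.mod_mod_of_dvd n₀ ⟨4 * c, by ring⟩
    rw [h1, Nat.mod_eq_of_lt (by omega)] at h3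
    exact h3.symm
  · have h5 : n₀.Coprime (4 * c * d) := by
      have : n₀.gcd (4 * c * d) = (n₀ % (4 * c * d)).gcd (4 * c * d) := by
        rw [← Nat.gcd_rec, Nat.gcd_comm]
      rw [Nat.Coprime, this, h1, Nat.gcd_one_left]
    have h6 : n₀.Coprime p := by
      rw [Nat.coprime_comm, Nat.Prime.coprime_iff_not_dvd hp]
      intro h
      apply hb0
      rw [← hnb]
      exact (ZMod.natCast_eq_zero_iff _ _).mpr h
    have h7 : 4 * (p * c) * d = p * (4 * c * d) := by ring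
    rw [h7]
    exact Nat.Coprime.mul_right h6 h5
  · push_cast
    rw [jacobiSym.mul_left]
    have h8 : J((p : ℤ) | n₀) = -1 := by
      rw [jacobiSym.quadratic_reciprocity_one_mod_four' hodd h4]
      exact hleg
    have h9 : J((c : ℤ) | n₀) = 1 := by
      apply jacobi_one_mod hc
      have h3 : n₀ % (4 * c * d) % (4 * c) = n₀ % (4 * c) := Nat.mod_mod_of_dvd n₀ ⟨d, rfl⟩
      rw [h1, Nat.mod_eq_of_lt (by omega)] at h3
      exact h3.symm
    rw [h8, h9]; norm_num

lemma good_even {d c : ℕ} (hd : Odd d) (hd3 : 3 ≤ d) (hc : Odd c) : Good d (2 * c) := by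
  have hcop : (8 : ℕ).Coprime (c * d) := by
    have : Odd (c * d) := hc.mul hd
    rw [show (8 : ℕ) = 2 ^ 3 by norm_num]
    exact Nat.Coprime.pow_left 3 (Nat.coprime_two_left.mpr this)
  obtain ⟨n₀, hn1, hn2⟩ := Nat.chineseRemainder hcop 5 1
  have hc0 : 0 < c := hc.pos
  have h1 : n₀ % (c * d) = 1 := by
    have : n₀ % (c * d) = 1 % (c * d) := hn2
    rw [this, Nat.mod_eq_of_lt (by nlinarith)]
  have h8 : n₀ % 8 = 5 := hn1
  have hodd : Odd n₀ := by rw [Nat.odd_iff]; omega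
  refine ⟨n₀, ?_, ?_, ?_⟩
  · have h3 : n₀ % (c * d) % d = n₀ % d := Nat.mod_mod_of_dvd n₀ ⟨c, by ring⟩
    rw [h1, Nat.mod_eq_of_lt (by omega)] at h3
    exact h3.symm
  · have h5 : n₀.Coprime (c * d) := by
      have : n₀.gcd (c * d) = (n₀ % (c * d)).gcd (c * d) := by
        rw [← Nat.gcd_rec, Nat.gcd_comm]
      rw [Nat.Coprime, this, h1, Nat.gcd_one_left]
    have h6 : n₀.Coprime 8 := by
      rw [show (8 : ℕ) = 2 ^ 3 by norm_num]
      exact Nat.Coprime.pow_right 3 (Nat.coprime_two_right.mpr hodd)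
    have h7 : 4 * (2 * c) * d = 8 * (c * d) := by ring
    rw [h7]
    exact Nat.Coprime.mul_right h6 h5
  · push_cast
    rw [jacobiSym.mul_left]
    have h9 : J((2 : ℤ) | n₀) = -1 := by
      rw [jacobiSym.at_two hodd]
      have : ((n₀ : ℕ) : ZMod 8) = 5 := by
        have h10 : ((n₀ : ℕ) : ZMod 8) = ((5 : ℕ) : ZMod 8) :=
          (ZMod.natCast_eq_natCast_iff _ _ _).mpr hn1
        rw [h10]; rfl
      rw [this]
      decide
    have h10 : J((c : ℤ) | n₀) = 1 := by
      apply jacobi_one_mod hc0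
      have h11 : n₀ ≡ 1 [MOD 4 * c] := by
        have h12 : (4 : ℕ).Coprime c := by
          rw [show (4 : ℕ) = 2 ^ 2 by norm_num]
          exact Nat.Coprime.pow_left 2 (Nat.coprime_two_left.mpr hc)
        rw [← Nat.modEq_and_modEq_iff_modEq_mul h12]
        constructor
        · show n₀ % 4 = 1 % 4; omega
        · exact hn2.of_dvd (Dvd.intro _ rfl)
      have h13 : n₀ % (4 * c) = 1 % (4 * c) := h11
      rw [h13, Nat.mod_eq_of_lt (by omega)]
    rw [h9, h10]; norm_num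

lemma good_three {d a : ℕ} (hd : Odd d) (hd3 : 3 ≤ d) (had : a ∣ d) (ha4 : a % 4 = 3) : Good d a := by
  have hcop : (4 : ℕ).Coprime d := by
    rw [show (4 : ℕ) = 2 ^ 2 by norm_num]
    exact Nat.Coprime.pow_left 2 (Nat.coprime_two_left.mpr hd)
  obtain ⟨n₀, hn1, hn2⟩ := Nat.chineseRemainder hcop 3 1
  have h1 : n₀ % d = 1 := by
    have : n₀ % d = 1 % d := hn2
    rw [this, Nat.mod_eq_of_lt (by omega)]
  have h4 : n₀ % 4 = 3 := hn1
  have hodd : Odd n₀ := by rw [Nat.odd_iff]; omega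
  have h1a : n₀ % a = 1 := by
    have h3 : n₀ % d % a = n₀ % a := Nat.mod_mod_of_dvd n₀ had
    rw [h1, Nat.mod_eq_of_lt (by omega)] at h3
    exact h3.symm
  have cop1 : ∀ b : ℕ, n₀ % b = 1 → n₀.Coprime b := by
    intro b hb
    have : n₀.gcd b = (n₀ % b).gcd b := by
      rw [← Nat.gcd_rec, Nat.gcd_comm]
    rw [Nat.Coprime, this, hb, Nat.gcd_one_left]
  refine ⟨n₀, h1, ?_, ?_⟩
  · have h6 : n₀.Coprime 4 := by
      rw [show (4 : ℕ) = 2 ^ 2 by norm_num]
      exact Nat.Coprime.pow_right 2 (Nat.coprime_two_right.mpr hodd)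
    exact Nat.Coprime.mul_right (Nat.Coprime.mul_right h6 (cop1 a h1a)) (cop1 d h1)
  · rw [jacobiSym.quadratic_reciprocity_three_mod_four ha4 h4, jacobiSym.mod_left]
    have : ((n₀ : ℤ) % (a : ℤ)) = 1 := by exact_mod_cast h1a
    rw [this, jacobiSym.one_left]

/-- all squarefree `a > 1` are good for the odd modulus `d`, except for the divisors of `d` which
are `≡ 1 (mod 4)` -/
theorem good_gen {d a : ℕ} (hd : Odd d) (hd3 : 3 ≤ d) (ha : Squarefree a) (ha1 : a ≠ 1)
    (had : ¬ (a ∣ d ∧ a % 4 = 1)) : Good d a := by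
  have ha0 : a ≠ 0 := ha.ne_zero
  by_cases h2 : 2 ∣ a
  · obtain ⟨c, rfl⟩ := h2
    apply good_even hd hd3
    rw [← Nat.coprime_two_left]
    exact Nat.coprime_of_squarefree_mul ha
  · by_cases hex : ∃ p : ℕ, p.Prime ∧ ¬ p ∣ d ∧ p ∣ a
    · obtain ⟨p, hp, hpl, c, rfl⟩ := hex
      have hc0 : 0 < c := Nat.pos_of_ne_zero (by rintro rfl; simp at ha0)
      refine good_prime hd3 hp ?_ hpl hc0 ?_
      · rintro rfl; exact h2 (Dvd.intro _ rfl)
      · rw [← Nat.Prime.coprime_iff_not_dvd hp]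
        exact Nat.coprime_of_squarefree_mul ha
    · push Not at hex
      have h3 : a ∣ d := by
        rw [← Nat.prod_primeFactors_of_squarefree ha]
        apply Finset.prod_primes_dvd
        · intro p hp; exact (Nat.prime_of_mem_primeFactors hp).prime
        · intro p hp
          by_contra h
          exact hex p (Nat.prime_of_mem_primeFactors hp) h (Nat.dvd_of_mem_primeFactors hp)
      have h4 : a % 4 ≠ 1 := fun h => had ⟨h3, h⟩
      exact good_three hd hd3 h3 (by omega)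

end Pool.Agent.Lib.MP_79499b_co.C11
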