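import Pool.Agent.Lib.MP_79499b_co.Q38NT

/-!
# The number of roots of `1 + n + ⋯ + n^(m-1)` modulo a prime, `m` arbitrary
-/

namespace Pool.Agent.Lib.MP_79499b_co.C11

open Finset
open scoped Classical
open Pool.Agent.Lib.MP_79499b_co.Q38

/-- the number of roots modulo a prime `u` is at least `gcd (m, u - 1) - 1` -/
theorem gcd_le_nroots {m u : ℕ} (hm : 1 ≤ m) (hu : u.Prime) :
    Nat.gcd m (u - 1) ≤ nroots m u + 1 := by
  have : Fact u.Prime := ⟨hu⟩
  set d := Nat.gcd m (u - 1) with hd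
  have hd0 : 0 < d := Nat.gcd_pos_of_pos_left _ (by omega)
  have hcard : Nat.card (ZMod u)ˣ = u - 1 := by
    rw [Nat.card_eq_fintype_card, ZMod.card_units u]
  obtain ⟨g, hg⟩ := IsCyclic.exists_generator (α := (ZMod u)ˣ)
  have hog : orderOf g = u - 1 := by
    rw [← hcard]; exact orderOf_eq_card_of_forall_mem_zpowers hg
  have hu1 : 0 < u - 1 := by have := hu.one_lt; omega
  obtain ⟨e, he⟩ : d ∣ u - 1 := Nat.gcd_dvd_right _ _
  have he0 : 0 < e := by
    rcases Nat.eq_zero_or_pos e with h | h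
    · rw [h, mul_zero] at he; omega
    · exact h
  set ζ : (ZMod u)ˣ := g ^ e with hζdef
  have hζ : orderOf ζ = d := by
    rw [hζdef, orderOf_pow' g he0.ne', hog, he, Nat.gcd_eq_right (Dvd.intro_left d rfl),
      Nat.mul_div_cancel _ he0]
  have hζm : ζ ^ m = 1 := by
    rw [← orderOf_dvd_iff_pow_eq_one, hζ]
    exact Nat.gcd_dvd_left _ _
  unfold nroots
  have h1 : (Ico 1 d).card ≤ ((range u).filter (fun n => u ∣ Phi m n)).card := by
    refine Finset.card_le_card_of_injOn (fun i => ((ζ ^ i : (ZMod u)ˣ) : ZMod u).val) ?_ ?_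
    · intro i hi
      rw [Finset.mem_coe, Finset.mem_Ico] at hi
      rw [Finset.mem_coe, Finset.mem_filter, Finset.mem_range]
      refine ⟨ZMod.val_lt _, ?_⟩
      rw [← ZMod.natCast_eq_zero_iff]
      unfold Phi
      push_cast
      rw [ZMod.natCast_zmod_val]
      have h2 : ((ζ ^ i : (ZMod u)ˣ) : ZMod u) ≠ 1 := by
        intro h3
        have h4 : ζ ^ i = 1 := Units.ext h3
        have h5 := orderOf_dvd_of_pow_eq_one h4
        rw [hζ] at h5
        exact absurd (Nat.le_of_dvd (by omega) h5) (by omega)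
      have h3 : ((ζ ^ i : (ZMod u)ˣ) : ZMod u) ^ m = 1 := by
        rw [← Units.val_pow_eq_pow_val, ← pow_mul, mul_comm, pow_mul, hζm, one_pow, Units.val_one]
      have h4 := geom_sum_mul ((ζ ^ i : (ZMod u)ˣ) : ZMod u) m
      rw [h3, sub_self] at h4
      rcases mul_eq_zero.mp h4 with h | h
      · exact h
      · exact absurd (sub_eq_zero.mp h) h2
    · intro i hi j hj hij
      rw [Finset.mem_coe, Finset.mem_Ico] at hi hj
      have h2 : ζ ^ i = ζ ^ j := Units.ext (ZMod.val_injective u hij)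
      rw [pow_inj_mod, hζ, Nat.mod_eq_of_lt hi.2, Nat.mod_eq_of_lt hj.2] at h2
      exact h2
  rw [Nat.card_Ico] at h1
  omega

/-- the same bound written as a sum over the divisors -/
theorem sum_totient_le_nroots {m u : ℕ} (hm : 1 ≤ m) (hu : u.Prime) :
    ∑ d ∈ (m.divisors.erase 1).filter (fun d => u % d = 1), d.totient ≤ nroots m u := by
  have h1 := gcd_le_nroots hm hu
  have hg0 : Nat.gcd m (u - 1) ≠ 0 := (Nat.gcd_pos_of_pos_left _ (by omega)).ne'
  have h2 := Nat.sum_totient (Nat.gcd m (u - 1))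
  have h3 : (m.divisors.erase 1).filter (fun d => u % d = 1) = (Nat.gcd m (u - 1)).divisors.erase 1 := by
    ext d
    rw [Finset.mem_filter, Finset.mem_erase, Finset.mem_erase, Nat.mem_divisors, Nat.mem_divisors]
    constructor
    · rintro ⟨⟨hd1, hdm, hm0⟩, hud⟩
      have hd0 : 0 < d := Nat.pos_of_dvd_of_pos hdm (by omega)
      refine ⟨hd1, Nat.dvd_gcd hdm ((Nat.modEq_iff_dvd' hu.one_lt.le).mp ?_), hg0⟩
      rw [Nat.ModEq, hud, Nat.mod_eq_of_lt (by omega)]
    · rintro ⟨hd1, hdg, _⟩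
      have hdm : d ∣ m := hdg.trans (Nat.gcd_dvd_left _ _)
      have hd0 : 0 < d := Nat.pos_of_dvd_of_pos hdm (by omega)
      refine ⟨⟨hd1, hdm, by omega⟩, ?_⟩
      have h4 : d ∣ u - 1 := hdg.trans (Nat.gcd_dvd_right _ _)
      have h5 := (Nat.modEq_iff_dvd' hu.one_lt.le).mpr h4
      rw [Nat.ModEq, Nat.mod_eq_of_lt (show 1 < d by omega)] at h5
      exact h5.symm
  rw [h3]
  have h4 : (1 : ℕ) ∈ (Nat.gcd m (u - 1)).divisors := Nat.one_mem_divisors.mpr hg0
  have h5 := Finset.add_sum_erase _ (fun d => d.totient) h4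
  rw [h2, Nat.totient_one] at h5
  omega

end Pool.Agent.Lib.MP_79499b_co.C11
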